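import Pool.Agent.Lib.MP_7f1385_an.Full

/-!
# Period-two dynamics of `x (n+1) = (x (n-1) + β x n + α) / (x (n-1) + B x n + A)`

Q1 for all parameters: the statements (a), (b) and (c).
-/

set_option autoImplicit false

namespace Pool.Agent.Results.MP_7f1385_an.PeriodTwoConjecture

open Filter Topology Pool.Agent.MP_7f1385_an

/-- The statements (a), (b) and (c) for all parameters `α, A ≥ 0`, `α + A > 0`, `β, B > 0`. -/
theorem result (α β A B : ℝ) (hα : 0 ≤ α) (hA : 0 ≤ A) (hαA : 0 < α + A) (hβ : 0 < β)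
    (hB : 0 < B) :
    (β + A < 1 → 4 * α < (1 - β - A) * (B * (1 - β - A) - 1 - 3 * β + A) →
      ∃ p q : ℝ, 0 < p ∧ p < q ∧ IsSolution α β A B (fun n => if Even n then p else q) ∧
        LocAsymStable (T α β A B)^[2] (p, q) ∧ LocAsymStable (T α β A B)^[2] (q, p) ∧
        ∀ p' q' : ℝ, p' ≠ q' → IsSolution α β A B (fun n => if Even n then p' else q') →
          (p' = p ∧ q' = q) ∨ (p' = q ∧ q' = p)) ∧
    (∀ e : ℝ, IsGreatest {t : ℝ | 0 ≤ t ∧ (B + 1) * t ^ 2 + (A - β - 1) * t - α = 0} e →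
      (1 ≤ β + A ∨ (1 - β - A) * (B * (1 - β - A) - 1 - 3 * β + A) ≤ 4 * α) →
        LocStable (T α β A B) (e, e) ∧
        ∀ x : ℕ → ℝ, IsSolution α β A B x → (∀ n, 0 < x n) → Tendsto x atTop (𝓝 e)) ∧
    (∀ x : ℕ → ℝ, IsSolution α β A B x →
      ∃ y : ℕ → ℝ, IsSolution α β A B y ∧ (∀ n, y (n + 2) = y n) ∧
        Tendsto (fun n => x n - y n) atTop (𝓝 0)) :=
  ⟨part_a hα hA hβ hB, fun _ he hK => part_b_full hα hA hαA hβ hB hK he,
    fun _ hx => part_c_full hα hA hαA hβ hB hx⟩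

end Pool.Agent.Results.MP_7f1385_an.PeriodTwoConjecture
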